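import Pool.Agent.W984.PH.Stm

/-!
# Project PH: the size-biased means decrease
-/

set_option autoImplicit false

open Finset

namespace Pool.Agent.W762.PH

open Pool.Agent.W984.PH

theorem bracket (h : S_LC) {V : Type} [DecidableEq V] (x : V → ℝ) (U : Finset V)
    (hx : ∀ v ∈ U, 0 ≤ x v) (j : ℕ) (u v : V) (hu : u ∈ U) (hv : v ∈ U) :
    0 ≤ (x u - x v) * (es x (U.erase u) j * es x (U.erase v) (j + 1) -
      es x (U.erase u) (j + 1) * es x (U.erase v) j) := by
  by_cases huv : u = v
  · rw [huv, sub_self, zero_mul]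
  · have hv' : v ∈ U.erase u := Finset.mem_erase.2 ⟨fun h => huv h.symm, hv⟩
    have hu' : u ∈ U.erase v := Finset.mem_erase.2 ⟨huv, hu⟩
    have hW : (U.erase v).erase u = (U.erase u).erase v := Finset.erase_right_comm
    have hx' : ∀ w ∈ (U.erase u).erase v, 0 ≤ x w := fun w hw =>
      hx w (Finset.mem_of_mem_erase (Finset.mem_of_mem_erase hw))
    have e1 := fun i => es_erase x (U.erase u) v hv' i
    have e2 := fun i => es_erase x (U.erase v) u hu' i
    rw [hW] at e2
    rcases j with _ | i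
    · rw [e1, e2, es_zero, es_zero, es_zero]
      nlinarith [sq_nonneg (x u - x v)]
    · rw [e1 (i + 1), e1 i, e2 (i + 1), e2 i]
      have h1 := h V x ((U.erase u).erase v) hx' i i le_rfl
      generalize es x ((U.erase u).erase v) i = c0 at *
      generalize es x ((U.erase u).erase v) (i + 1) = c1 at *
      have h2 : es x ((U.erase u).erase v) (i + 1 + 1) = es x ((U.erase u).erase v) (i + 2) := rfl
      rw [h2]
      generalize es x ((U.erase u).erase v) (i + 2) = c2 at *
      have h3 : (x u - x v) * ((c1 + x v * c0) * (c2 + x u * c1) -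
          (c2 + x v * c1) * (c1 + x u * c0)) = (x u - x v) ^ 2 * (c1 * c1 - c2 * c0) := by ring
      rw [h3]
      exact mul_nonneg (sq_nonneg _) (by linarith)

theorem km (h : S_LC) : S_KM := by
  intro V _ x U hx j
  have h1 : ((j : ℝ) + 1) * es x U (j + 1) = ∑ v ∈ U, x v * es x (U.erase v) j :=
    (sum_es_erase x U j).symm
  have h2 : ((j : ℝ) + 2) * es x U (j + 2) = ∑ v ∈ U, x v * es x (U.erase v) (j + 1) := by
    rw [sum_es_erase x U (j + 1)]
    push_cast
    ring
  rw [h1, h2, Finset.sum_mul_sum, Finset.sum_mul_sum, ← sub_nonneg, ← Finset.sum_sub_distrib]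
  simp only [← Finset.sum_sub_distrib]
  set T : V → V → ℝ := fun u v => x u ^ 2 * es x (U.erase u) j * (x v * es x (U.erase v) (j + 1)) -
    x u ^ 2 * es x (U.erase u) (j + 1) * (x v * es x (U.erase v) j) with hT
  have h3 : ∑ u ∈ U, ∑ v ∈ U, T u v = ∑ u ∈ U, ∑ v ∈ U, T v u := Finset.sum_comm
  have h4 : 0 ≤ ∑ u ∈ U, ∑ v ∈ U, (T u v + T v u) := by
    refine Finset.sum_nonneg fun u hu => Finset.sum_nonneg fun v hv => ?_
    have h5 := bracket h x U hx j u v hu hv
    have h6 : T u v + T v u = x u * x v * ((x u - x v) *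
        (es x (U.erase u) j * es x (U.erase v) (j + 1) -
          es x (U.erase u) (j + 1) * es x (U.erase v) j)) := by
      simp only [hT]
      ring
    rw [h6]
    exact mul_nonneg (mul_nonneg (hx u hu) (hx v hv)) h5
  simp only [Finset.sum_add_distrib] at h4
  change 0 ≤ ∑ u ∈ U, ∑ v ∈ U, T u v
  linarith

end Pool.Agent.W762.PH
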