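import Pool.Agent.W984.PH.Stm

/-!
# Project PH: the main inequality
-/

set_option autoImplicit false

open Finset

namespace Pool.Agent.W762.PH

open Pool.Agent.W984.PH

theorem bb_nonneg (i : ℕ) : 0 ≤ bb i := by
  unfold bb
  rcases i with _ | i
  · simp
  · push_cast
    have : (0 : ℝ) ≤ i := Nat.cast_nonneg i
    have h : ((i : ℝ) + 1) * ((i : ℝ) + 1 - 1) / 2 = ((i : ℝ) + 1) * i / 2 := by ring
    rw [h]
    positivity

theorem mul_bound {E F P Q a b s t : ℝ} (hF0 : 0 ≤ F) (hP : 0 ≤ P) (hQ : 0 ≤ Q) (ha : 0 ≤ a)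
    (ha1 : a ≤ 1) (hs : 0 ≤ s) (ht : 0 ≤ t) (h1 : E ≤ (a + s) * P) (h2 : F ≤ (b + t) * Q)
    (h3 : F ≤ Q) : E * F ≤ (a * b + s + t) * (P * Q) := by
  calc E * F ≤ ((a + s) * P) * F := mul_le_mul_of_nonneg_right h1 hF0
    _ = a * P * F + s * P * F := by ring
    _ ≤ a * P * ((b + t) * Q) + s * P * Q := by
        gcongr
    _ = a * b * (P * Q) + s * (P * Q) + a * (t * (P * Q)) := by ring
    _ ≤ a * b * (P * Q) + s * (P * Q) + 1 * (t * (P * Q)) := by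
        gcongr
    _ = _ := by ring

theorem pow_bound (A z : ℝ) (hA : 0 ≤ A) (hz : 0 ≤ z) (n : ℕ) :
    A ^ (n + 1) + ((n : ℝ) + 1) * z * A ^ n ≤ (A + z) ^ (n + 1) := by
  induction n with
  | zero => simp
  | succ n ih =>
    have h1 := mul_le_mul_of_nonneg_left ih (add_nonneg hA hz)
    have h2 : 0 ≤ ((n : ℝ) + 1) * z ^ 2 * A ^ n := by positivity
    calc A ^ (n + 1 + 1) + (((n + 1 : ℕ) : ℝ) + 1) * z * A ^ (n + 1)
        ≤ (A + z) * (A ^ (n + 1) + ((n : ℝ) + 1) * z * A ^ n) := by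
          push_cast
          have h3 : (A + z) * (A ^ (n + 1) + ((n : ℝ) + 1) * z * A ^ n) =
              A ^ (n + 1 + 1) + ((n : ℝ) + 1 + 1) * z * A ^ (n + 1) +
                ((n : ℝ) + 1) * z ^ 2 * A ^ n := by ring
          rw [h3]
          linarith
      _ ≤ (A + z) * (A + z) ^ (n + 1) := h1
      _ = _ := by ring

/-- the bound of the products of elementary symmetric functions -/
theorem term_bound (h1 : S_STEP) (h5 : S_FP) {V : Type} [DecidableEq V] (x : V → ℝ)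
    (V1 V2 : Finset V) (hx : ∀ w, 0 ≤ x w) (hX : 0 < ∑ w ∈ V1, x w) (hY : 0 < ∑ w ∈ V2, x w)
    (r m1 m2 : ℕ) (P1 P2 : ℝ) (hr : 3 ≤ r) (hP1 : 0 ≤ P1) (hP2 : 0 ≤ P2)
    (hb1 : bb r / (m1 : ℝ) < 1) (hb2 : bb r / (m2 : ℝ) < 1)
    (hV1 : (r.factorial : ℝ) * es x V1 r ≤ fp r (1 / (m1 : ℝ)) * (∑ w ∈ V1, x w) ^ r + P1)
    (hV2 : (r.factorial : ℝ) * es x V2 r ≤ fp r (1 / (m2 : ℝ)) * (∑ w ∈ V2, x w) ^ r + P2)
    (d1 d2 : ℝ)
    (hd1 : d1 = P1 / ((∑ w ∈ V1, x w) ^ r * (bb r * (1 - bb r * (1 / (m1 : ℝ))))))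
    (hd2 : d2 = P2 / ((∑ w ∈ V2, x w) ^ r * (bb r * (1 - bb r * (1 / (m2 : ℝ))))))
    (hd1' : 0 ≤ d1) (hd2' : 0 ≤ d2) (i j : ℕ) (hi : i ≤ r) (hj : j ≤ r) :
    es x V1 i * es x V2 j ≤
      (fp i (1 / (m1 : ℝ)) * ((∑ w ∈ V1, x w) ^ i / (i.factorial : ℝ))) *
        (fp j (1 / (m2 : ℝ)) * ((∑ w ∈ V2, x w) ^ j / (j.factorial : ℝ))) +
      d1 * (bb i * ((∑ w ∈ V1, x w) ^ i / (i.factorial : ℝ)) *
        ((∑ w ∈ V2, x w) ^ j / (j.factorial : ℝ))) +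
      d2 * (bb j * ((∑ w ∈ V2, x w) ^ j / (j.factorial : ℝ)) *
        ((∑ w ∈ V1, x w) ^ i / (i.factorial : ℝ))) := by
  set X := ∑ w ∈ V1, x w
  set Y := ∑ w ∈ V2, x w
  have hκ1 : (0 : ℝ) ≤ 1 / (m1 : ℝ) := by positivity
  have hκ2 : (0 : ℝ) ≤ 1 / (m2 : ℝ) := by positivity
  have hb1' : bb r * (1 / (m1 : ℝ)) < 1 := by rwa [mul_one_div]
  have hb2' : bb r * (1 / (m2 : ℝ)) < 1 := by rwa [mul_one_div]
  have hfp : ∀ (κ : ℝ), 0 ≤ κ → bb r * κ < 1 → ∀ i ≤ r, 0 ≤ fp i κ ∧ fp i κ ≤ 1 := by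
    intro κ hκ hbκ i hi
    have h6 : ((i : ℝ) - 1) * κ ≤ 1 := by
      have h7 : (i : ℝ) ≤ r := by exact_mod_cast hi
      have h8 : (3 : ℝ) ≤ r := by exact_mod_cast hr
      have h9 : (i : ℝ) - 1 ≤ bb r := by
        unfold bb
        nlinarith
      calc ((i : ℝ) - 1) * κ ≤ bb r * κ := mul_le_mul_of_nonneg_right h9 hκ
        _ ≤ 1 := hbκ.le
    exact (h5 i κ hκ h6).2.2
  have s1 := h1 V x V1 (fun w _ => hx w) r (1 / (m1 : ℝ)) P1 (by omega) hκ1 hb1' hP1 hX hV1 i hi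
  have s2 := h1 V x V2 (fun w _ => hx w) r (1 / (m2 : ℝ)) P2 (by omega) hκ2 hb2' hP2 hY hV2 j hj
  rw [← hd1] at s1
  rw [← hd2] at s2
  have f1 := hfp _ hκ1 hb1' i hi
  have hE0 := es_nonneg x V1 (fun w _ => hx w) i
  have hF0 := es_nonneg x V2 (fun w _ => hx w) j
  have hF1 := es_le_pow x V2 (fun w _ => hx w) j
  have hif : (0 : ℝ) < (i.factorial : ℝ) := by positivity
  have hjf : (0 : ℝ) < (j.factorial : ℝ) := by positivity
  have key := mul_bound (E := (i.factorial : ℝ) * es x V1 i) (F := (j.factorial : ℝ) * es x V2 j)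
    (P := X ^ i) (Q := Y ^ j) (a := fp i (1 / (m1 : ℝ))) (b := fp j (1 / (m2 : ℝ)))
    (s := bb i * d1) (t := bb j * d2) (by positivity) (by positivity) (by positivity)
    f1.1 f1.2 (mul_nonneg (bb_nonneg i) hd1') (mul_nonneg (bb_nonneg j) hd2') s1 s2 hF1
  have e1 : es x V1 i * es x V2 j = ((i.factorial : ℝ) * es x V1 i *
      ((j.factorial : ℝ) * es x V2 j)) / ((i.factorial : ℝ) * (j.factorial : ℝ)) := by
    field_simp
  rw [e1, div_le_iff₀ (by positivity)]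
  refine key.trans_eq ?_
  field_simp

theorem cancel (B D X P : ℝ) (n : ℕ) (hB : B ≠ 0) (hD : D ≠ 0) (hX : X ≠ 0) :
    B * (P / (X ^ (n + 3) * (B * D))) * X ^ 2 = P / (X ^ (n + 1) * D) := by
  have h : X ^ (n + 3) = X ^ (n + 1) * X ^ 2 := by ring
  rw [h]
  field_simp

theorem mi (h1 : S_STEP) (h2 : S_VAN) (h3 : S_ERR) (h4 : S_UNI) (h5 : S_FP) : S_MI := by
  intro V _ x V1 V2 v hx hdis hv1 hv2 hsum hX hY r m1 m2 P1 P2 hr hP1 hP2 hm1 hm2 hb1 hb2 hV1 hV2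
  obtain ⟨n, rfl⟩ : ∃ n, r = n + 3 := ⟨r - 3, by omega⟩
  have hκ1 : bb (n + 3) * (1 / (m1 : ℝ)) < 1 := by rwa [mul_one_div]
  have hκ2 : bb (n + 3) * (1 / (m2 : ℝ)) < 1 := by rwa [mul_one_div]
  have hbb : 0 < bb (n + 3) := by
    unfold bb
    push_cast
    have : (0 : ℝ) ≤ n := Nat.cast_nonneg n
    have h : ((n : ℝ) + 3) * ((n : ℝ) + 3 - 1) / 2 = ((n : ℝ) + 3) * (n + 2) / 2 := by ring
    rw [h]
    positivity
  have hz : 0 ≤ x v := hx v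
  have tb := term_bound h1 h5 x V1 V2 hx hX hY (n + 3) m1 m2 P1 P2 hr hP1 hP2 hb1 hb2 hV1 hV2
    _ _ rfl rfl
    (div_nonneg hP1 (mul_nonneg (pow_nonneg hX.le _) (mul_nonneg hbb.le (by linarith))))
    (div_nonneg hP2 (mul_nonneg (pow_nonneg hY.le _) (mul_nonneg hbb.le (by linarith))))
  set X := ∑ w ∈ V1, x w with hXdef
  set Y := ∑ w ∈ V2, x w with hYdef
  have hd1' : (0 : ℝ) ≤ P1 / (X ^ (n + 3) * (bb (n + 3) * (1 - bb (n + 3) * (1 / (m1 : ℝ))))) :=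
    div_nonneg hP1 (mul_nonneg (pow_nonneg hX.le _) (mul_nonneg hbb.le (by linarith)))
  have hd2' : (0 : ℝ) ≤ P2 / (Y ^ (n + 3) * (bb (n + 3) * (1 - bb (n + 3) * (1 / (m2 : ℝ))))) :=
    div_nonneg hP2 (mul_nonneg (pow_nonneg hY.le _) (mul_nonneg hbb.le (by linarith)))
  have g1 : bb (n + 3) * (P1 / (X ^ (n + 3) * (bb (n + 3) * (1 - bb (n + 3) * (1 / (m1 : ℝ)))))) *
      X ^ 2 = P1 / (X ^ (n + 3 - 2) * (1 - bb (n + 3) / (m1 : ℝ))) := by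
    have e1 : n + 3 - 2 = n + 1 := by omega
    rw [e1, mul_one_div]
    exact cancel _ _ _ _ _ hbb.ne' (by linarith) hX.ne'
  have g2 : bb (n + 3) * (P2 / (Y ^ (n + 3) * (bb (n + 3) * (1 - bb (n + 3) * (1 / (m2 : ℝ)))))) *
      Y ^ 2 = P2 / (Y ^ (n + 3 - 2) * (1 - bb (n + 3) / (m2 : ℝ))) := by
    have e1 : n + 3 - 2 = n + 1 := by omega
    rw [e1, mul_one_div]
    exact cancel _ _ _ _ _ hbb.ne' (by linarith) hY.ne'
  generalize P1 / (X ^ (n + 3) * (bb (n + 3) * (1 - bb (n + 3) * (1 / (m1 : ℝ))))) = d1 at *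
  generalize P2 / (Y ^ (n + 3) * (bb (n + 3) * (1 - bb (n + 3) * (1 / (m2 : ℝ))))) = d2 at *
  have hT : ∀ k, k + 2 ≤ n + 3 → es x (V1 ∪ V2) (k + 2) ≤ cv m1 m2 X Y (k + 2) +
      d1 * (X ^ 2 / 2 * ((X + Y) ^ k / (k.factorial : ℝ))) +
      d2 * (Y ^ 2 / 2 * ((X + Y) ^ k / (k.factorial : ℝ))) := by
    intro k hk
    rw [h2 V x V1 V2 hdis]
    have e1 := h3 X Y k
    have e2 := h3 Y X k
    rw [add_comm Y X] at e2
    have e3 := Finset.Nat.sum_antidiagonal_swap (n := k + 2) (f := fun p : ℕ × ℕ =>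
      bb p.1 * (Y ^ p.1 / (p.1.factorial : ℝ)) * (X ^ p.2 / (p.2.factorial : ℝ)))
    rw [← e1, ← e2, ← e3]
    unfold cv
    rw [Finset.mul_sum, Finset.mul_sum, ← Finset.sum_add_distrib, ← Finset.sum_add_distrib]
    refine Finset.sum_le_sum fun p hp => ?_
    have hp' := Finset.HasAntidiagonal.mem_antidiagonal.1 hp
    exact tb p.1 p.2 (by omega) (by omega)
  have hv12 : v ∉ V1 ∪ V2 := by
    rw [Finset.mem_union]
    rintro (h | h)
    · exact hv1 h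
    · exact hv2 h
  have hins : es x (insert v (V1 ∪ V2)) (n + 3) = es x (V1 ∪ V2) (n + 3) +
      x v * es x (V1 ∪ V2) (n + 2) := es_insert x (V1 ∪ V2) v hv12 (n + 2)
  have hT3 := hT (n + 1) (by omega)
  have hT2 := hT n (by omega)
  have hu := h4 m1 m2 X Y (x v) hm1 hm2 hX.le hY.le hz hsum (n + 2)
  have hfac1 : (0 : ℝ) < ((n + 1).factorial : ℝ) := by positivity
  have hfac3 : (0 : ℝ) < ((n + 3).factorial : ℝ) := by positivity
  have hW : (X + Y) ^ (n + 1) / ((n + 1).factorial : ℝ) + x v * ((X + Y) ^ n /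
      (n.factorial : ℝ)) ≤ 1 / ((n + 1).factorial : ℝ) := by
    have h6 := pow_bound (X + Y) (x v) (by linarith) hz n
    rw [hsum, one_pow] at h6
    have h7 : (X + Y) ^ (n + 1) / ((n + 1).factorial : ℝ) + x v * ((X + Y) ^ n /
        (n.factorial : ℝ)) = ((X + Y) ^ (n + 1) + ((n : ℝ) + 1) * x v * (X + Y) ^ n) /
          ((n + 1).factorial : ℝ) := by
      rw [Nat.factorial_succ]
      push_cast
      have : (n.factorial : ℝ) ≠ 0 := by positivity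
      field_simp
    rw [h7]
    gcongr
  have hfac : ((n + 3).factorial : ℝ) * (1 / ((n + 1).factorial : ℝ)) = 2 * bb (n + 3) := by
    have h8 : ((n + 3).factorial : ℝ) = ((n : ℝ) + 3) * ((n : ℝ) + 2) *
        ((n + 1).factorial : ℝ) := by
      rw [Nat.factorial_succ, Nat.factorial_succ (n + 1)]
      push_cast
      ring
    rw [h8]
    unfold bb
    push_cast
    field_simp
    ring
  rw [hins]
  have hT2' := mul_le_mul_of_nonneg_left hT2 hz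
  have hbig : es x (V1 ∪ V2) (n + 3) + x v * es x (V1 ∪ V2) (n + 2) ≤
      (cv m1 m2 X Y (n + 2 + 1) + x v * cv m1 m2 X Y (n + 2)) +
      (d1 * X ^ 2 + d2 * Y ^ 2) / 2 * ((X + Y) ^ (n + 1) / ((n + 1).factorial : ℝ) +
        x v * ((X + Y) ^ n / (n.factorial : ℝ))) := by
    have e : es x (V1 ∪ V2) (n + 3) = es x (V1 ∪ V2) (n + 1 + 2) := rfl
    have e' : cv m1 m2 X Y (n + 2 + 1) = cv m1 m2 X Y (n + 1 + 2) := rfl
    rw [e, e']
    nlinarith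
  have hdd : 0 ≤ (d1 * X ^ 2 + d2 * Y ^ 2) / 2 := by positivity
  calc ((n + 3).factorial : ℝ) * (es x (V1 ∪ V2) (n + 3) + x v * es x (V1 ∪ V2) (n + 2))
      ≤ ((n + 3).factorial : ℝ) * ((cv m1 m2 X Y (n + 2 + 1) + x v * cv m1 m2 X Y (n + 2)) +
      (d1 * X ^ 2 + d2 * Y ^ 2) / 2 * (1 / ((n + 1).factorial : ℝ))) := by
        refine mul_le_mul_of_nonneg_left (hbig.trans ?_) hfac3.le
        have := mul_le_mul_of_nonneg_left hW hdd
        linarith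
    _ = ((n + 2 + 1).factorial : ℝ) * (cv m1 m2 X Y (n + 2 + 1) + x v * cv m1 m2 X Y (n + 2)) +
        (d1 * X ^ 2 + d2 * Y ^ 2) / 2 *
          (((n + 3).factorial : ℝ) * (1 / ((n + 1).factorial : ℝ))) := by ring
    _ ≤ fp (n + 2 + 1) (1 / ((m1 : ℝ) + (m2 : ℝ) + 1)) +
        (d1 * X ^ 2 + d2 * Y ^ 2) / 2 * (2 * bb (n + 3)) := by
        rw [hfac]
        linarith
    _ = _ := by
        rw [← g1, ← g2]
        ring

end Pool.Agent.W762.PH
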